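import Pool.Agent.H173K.Struct

/-!
# The largest sets `A` with `hA ≠ G`

Complete description when `|G|` has a prime divisor `p` with `p ≢ 0, 1 (mod h)`.
-/

set_option autoImplicit false

namespace Pool.Agent.Results.MP_8507d5_co.ExtremalSets

open Finset
open Pool.Agent.H173K

/-- The `h`-fold sumset `hA`: all sums of `h` elements of `A`, repetitions allowed. -/
def hSum {G : Type} [AddCommGroup G] (A : Finset G) (h : ℕ) : Set G :=
  {x | ∃ f : Fin h → G, (∀ i, f i ∈ A) ∧ ∑ i, f i = x}

/-- `(⌊(d-2)/h⌋ + 1) · n/d`, the floor taken in the integers. -/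
def term (n h d : ℕ) : ℕ := (((d : ℤ) - 2) / (h : ℤ) + 1).toNat * (n / d)

/-- `v₁(n,h)`: the maximum of `term n h d` over the positive divisors `d` of `n`. -/
def v1 (n h : ℕ) : ℕ := n.divisors.sup (term n h)

theorem hSum_ne_iff {G : Type} [AddCommGroup G] [Fintype G] [DecidableEq G] (A : Finset G)
    (h : ℕ) : hSum A h ≠ Set.univ ↔ Kneser.sm h A ≠ univ := by
  rw [not_iff_not, Set.eq_univ_iff_forall, eq_univ_iff_forall]
  exact forall_congr' fun x => (mem_sm_iff A h x).symm

/-- the maximum is attained exactly at `p` -/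
theorem term_spec {n h p : ℕ} (hn : n ≠ 0) (hp0 : 0 < p) (hpn : p ∣ n)
    (hbest : ∀ d, d ∣ n → d ≠ p → cc d h * p < cc p h * d) :
    v1 n h = term n h p ∧ ∀ d, d ∣ n → d ≠ p → term n h d < term n h p := by
  have hlt : ∀ d, d ∣ n → d ≠ p → term n h d < term n h p := by
    intro d hd hdp
    have h1 := hbest d hd hdp
    have hd0 : 0 < d := Nat.pos_of_dvd_of_pos hd (Nat.pos_of_ne_zero hn)
    have e1 : n / d * d = n := Nat.div_mul_cancel hd
    have e2 : n / p * p = n := Nat.div_mul_cancel hpn
    have h2 : (term n h d) * (d * p) < (term n h p) * (d * p) := by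
      calc (term n h d) * (d * p) = cc d h * p * (n / d * d) := by unfold term cc; ring
        _ = cc d h * p * n := by rw [e1]
        _ < cc p h * d * n := Nat.mul_lt_mul_of_pos_right h1 (Nat.pos_of_ne_zero hn)
        _ = cc p h * d * (n / p * p) := by rw [e2]
        _ = (term n h p) * (d * p) := by unfold term cc; ring
    exact Nat.lt_of_mul_lt_mul_right h2
  refine ⟨le_antisymm ?_ ?_, hlt⟩
  · apply Finset.sup_le
    intro d hd
    rcases eq_or_ne d p with rfl | hne
    · exact le_rfl
    · exact (hlt d (Nat.dvd_of_mem_divisors hd) hne).le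
  · exact Finset.le_sup (f := term n h) (Nat.mem_divisors.2 ⟨hpn, hn⟩)

/-- Let `G` be a finite abelian group of order `n`, let `h ≥ 3`, and suppose that `n` has a prime
divisor that is not `0` or `1` modulo `h`.  Then the maximum defining `v₁(n,h)` is attained at
exactly one divisor, which is a prime `p ≢ 0, 1 (mod h)`, and the sets `A` with `|A| = v₁(n,h)` and
`hA ≠ G` are exactly the preimages of the intervals `{b, b+1, ..., b + ⌊(p-2)/h⌋}` of `ℤ/p` under
the surjective homomorphisms `G → ℤ/p`. -/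
theorem result (G : Type) [AddCommGroup G] [Fintype G] (h : ℕ) (hh : 3 ≤ h)
    (hex : ∃ p, p.Prime ∧ p ∣ Fintype.card G ∧ p % h ≠ 0 ∧ p % h ≠ 1) :
    ∃ p : ℕ, p.Prime ∧ p ∣ Fintype.card G ∧ p % h ≠ 0 ∧ p % h ≠ 1 ∧
      (∀ d ∈ (Fintype.card G).divisors,
        term (Fintype.card G) h d = v1 (Fintype.card G) h ↔ d = p) ∧
      ∀ A : Finset G, (A.card = v1 (Fintype.card G) h ∧ hSum A h ≠ Set.univ) ↔
        ∃ φ : G →+ ZMod p, Function.Surjective φ ∧ ∃ b : ZMod p,
          ∀ x, x ∈ A ↔ ∃ i : ℕ, i ≤ (p - 2) / h ∧ φ x = b + i := by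
  classical
  set n := Fintype.card G with hn
  have hn0 : n ≠ 0 := Fintype.card_ne_zero
  obtain ⟨p, hp, hpn, hp2, hbest⟩ := exists_best hh hn0
    (by obtain ⟨p, h1, h2, h3, h4⟩ := hex; exact ⟨p, h1, h2, by omega⟩)
  obtain ⟨hv, hlt⟩ := term_spec hn0 hp.pos hpn hbest
  refine ⟨p, hp, hpn, by omega, by omega, ?_, ?_⟩
  · intro d hd
    rw [hv]
    constructor
    · intro h1
      by_contra hne
      have := hlt d (Nat.dvd_of_mem_divisors hd) hne
      omega
    · rintro rfl
      rfl
  · intro A
    have hval : A.card = v1 n h ↔ A.card * p = cc p h * n := by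
      have e2 : n / p * p = n := Nat.div_mul_cancel hpn
      have e3 : term n h p * p = cc p h * n := by
        calc term n h p * p = cc p h * (n / p * p) := by unfold term cc; ring
          _ = cc p h * n := by rw [e2]
      rw [hv, ← e3]
      constructor
      · intro h1
        rw [h1]
      · intro h1
        exact Nat.eq_of_mul_eq_mul_right hp.pos h1
    rw [hval, hSum_ne_iff]
    constructor
    · rintro ⟨h1, h2⟩
      exact forward hh hp hp2 hbest A h1 h2
    · rintro ⟨φ, hφ, b, hA⟩
      exact backward hh hp φ hφ b A hA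

end Pool.Agent.Results.MP_8507d5_co.ExtremalSets
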